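import Pool.Agent.SGY.Stmts
import Pool.Agent.Helper56_SGP.CTR
import Pool.Agent.Helper81_SGP.Cone
import Pool.Agent.Helper77_SGP.ROT
import Pool.Agent.Helper51_SGE.Nta
import Pool.Agent.Helper51_SGE.Ntb

/-!
# SGY, module DE2: the contraction of the inner vertices outside the cluster into `b`
-/

set_option autoImplicit false

noncomputable section

namespace Pool.Agent.SGY.H10

open Pool.Agent.SGE Pool.Agent.SGP Pool.Agent.SGY

variable {V : Type}

theorem con_tail {a : V} {l : List V} {x y : V} (h : Con (a :: l) x y) : y ∈ l := by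
  obtain ⟨P, R, h1⟩ := h
  cases P with
  | nil =>
    simp only [List.nil_append, List.cons.injEq] at h1
    rw [h1.2]
    exact List.mem_cons_self
  | cons t P =>
    simp only [List.cons_append, List.cons.injEq] at h1
    rw [h1.2]
    simp

theorem con_cons {a : V} {l : List V} {x y : V} (h : Con (a :: l) x y) (hx : x ≠ a) :
    Con l x y := by
  obtain ⟨P, R, h1⟩ := h
  cases P with
  | nil =>
    simp only [List.nil_append, List.cons.injEq] at h1
    exact absurd h1.1.symm hx
  | cons t P =>
    simp only [List.cons_append, List.cons.injEq] at h1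
    exact ⟨P, R, h1.2⟩

theorem con_mid {A B : List V} {v x y : V} (h : Con (A ++ v :: B) x y) :
    Con (A ++ [v]) x y ∨ Con (v :: B) x y := by
  obtain ⟨P, R, hPR⟩ := h
  rcases List.append_eq_append_iff.1 hPR with ⟨l, h1, h2⟩ | ⟨l, h1, h2⟩
  · exact Or.inr ⟨l, R, h2⟩
  · cases l with
    | nil =>
      simp only [List.nil_append] at h2
      exact Or.inr ⟨[], R, h2.symm⟩
    | cons t l =>
      simp only [List.cons_append, List.cons.injEq] at h2
      obtain ⟨rfl, h2⟩ := h2
      cases l with
      | nil =>
        simp only [List.nil_append, List.cons.injEq] at h2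
        obtain ⟨rfl, -⟩ := h2
        exact Or.inl ⟨P, [], by rw [h1]; simp⟩
      | cons t' l =>
        simp only [List.cons_append, List.cons.injEq] at h2
        obtain ⟨rfl, -⟩ := h2
        exact Or.inl ⟨P, l ++ [v], by rw [h1]; simp⟩

theorem de2 (hM : MapStmt) : De2Stmt := by
  classical
  intro V _ a b c s w M Q mid U E F hP
  -- simple facts
  have hnd0 := hP.nt.nd
  simp only [List.nodup_cons, List.mem_cons, List.not_mem_nil, or_false, not_or] at hnd0
  obtain ⟨⟨hac, hab⟩, hcb, -⟩ := hnd0
  have hnd := hP.nt1.nd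
  have haL : a ∉ s :: (M ++ w :: Q) := (List.nodup_cons.1 hnd).1
  have hnd' : (s :: (M ++ w :: Q)).Nodup := (List.nodup_cons.1 hnd).2
  have has : a ≠ s := by
    rintro rfl
    exact haL (by simp)
  have haw : a ≠ w := by
    rintro rfl
    exact haL (by simp)
  have hsw : s ≠ w := by
    rintro rfl
    exact hP.nt.irr _ hP.sw
  have haU : a ∉ U := hP.uo a (by simp)
  have hsU : s ∉ U := hP.uo s (by simp)
  have hwU : w ∉ U := hP.uo w (by simp)
  have hbL : b ∈ w :: Q := by
    have h1 := hP.nt2.ls
    rw [List.getLast?_cons_cons, List.getLast?_cons_cons] at h1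
    exact List.mem_of_getLast? h1
  have hbU : b ∉ U := hP.uo b (by
    rw [List.mem_cons, List.mem_cons]
    exact Or.inr (Or.inr hbL))
  have hcL : c ∉ a :: s :: (M ++ w :: Q) := by
    intro h
    obtain ⟨y, hy⟩ := H56.contour_nb hP.nt1 h
    exact hy.2.1 rfl
  -- the cone
  have hcZ : c ∉ s :: (M ++ [w]) := by
    intro h
    apply hcL
    simp only [List.mem_cons, List.mem_append, List.not_mem_nil, or_false] at h ⊢
    tauto
  have N1 := H81.con hP.nt3 (fun x h => h.1.2.1 rfl) hcZ
  obtain ⟨E₅, hE₅⟩ : ∃ E₅, E₅ = cE (onE (rE E c) (U ∪ {s, w})) c (s :: (M ++ [w])) := ⟨_, rfl⟩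
  obtain ⟨F₅, hF₅⟩ : ∃ F₅, F₅ = cF (onF (rF F c) (U ∪ {s, w})) c (s :: (M ++ [w])) := ⟨_, rfl⟩
  rw [← hE₅, ← hF₅] at N1
  -- the vertices of the cone
  have hin : ∀ x y, E₅ x y → (x ∈ U ∨ x = s ∨ x = w ∨ x = c) := by
    intro x y h
    rw [hE₅] at h
    rcases h with h | ⟨h, -⟩ | ⟨-, h⟩
    · rcases h.2.1 with h | h | h
      · exact Or.inl h
      · exact Or.inr (Or.inl h)
      · exact Or.inr (Or.inr (Or.inl h))
    · exact Or.inr (Or.inr (Or.inr h))
    · simp only [List.mem_cons, List.mem_append, List.not_mem_nil, or_false] at h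
      rcases h with h | h | h
      · exact Or.inr (Or.inl h)
      · exact Or.inl (hP.uM x h)
      · exact Or.inr (Or.inr (Or.inl h))
  -- renaming
  obtain ⟨σ, hσ⟩ : ∃ σ : Equiv.Perm V, σ = Equiv.swap w b := ⟨_, rfl⟩
  have hσs : σ s = s := by
    rw [hσ]
    exact Equiv.swap_apply_of_ne_of_ne hsw hP.sb
  have hσc : σ c = c := by
    rw [hσ]
    exact Equiv.swap_apply_of_ne_of_ne (fun e => hP.wc e.symm) hcb
  have hσa : σ a = a := by
    rw [hσ]
    exact Equiv.swap_apply_of_ne_of_ne haw hab
  have hσw : σ w = b := by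
    rw [hσ]
    exact Equiv.swap_apply_left _ _
  have hσU : ∀ x ∈ U, σ x = x := by
    intro x hx
    rw [hσ]
    exact Equiv.swap_apply_of_ne_of_ne (fun e => hwU (e ▸ hx)) (fun e => hbU (e ▸ hx))
  have N2 := hM N1 σ
  obtain ⟨E₄, hE₄⟩ : ∃ E₄ : V → V → Prop, E₄ = fun x y => E₅ (σ.symm x) (σ.symm y) := ⟨_, rfl⟩
  obtain ⟨F₄, hF₄⟩ : ∃ F₄ : V → V → V → Prop,
    F₄ = fun x y z => F₅ (σ.symm x) (σ.symm y) (σ.symm z) := ⟨_, rfl⟩
  rw [← hE₄, ← hF₄] at N2
  simp only [List.map_cons, List.map_nil, hσs, hσc, hσw] at N2
  have hE45 : ∀ x y, E₅ x y → E₄ (σ x) (σ y) := by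
    intro x y h
    rw [hE₄]
    simpa using h
  have hF45 : ∀ x y z, F₅ x y z → F₄ (σ x) (σ y) (σ z) := by
    intro x y z h
    rw [hF₄]
    simpa using h
  have hin4 : ∀ x y, E₄ x y → (x ∈ U ∨ x = s ∨ x = b ∨ x = c) := by
    intro x y h
    rw [hE₄] at h
    have hx : σ (σ.symm x) = x := σ.apply_symm_apply x
    rcases hin _ _ h with h | h | h | h
    · rw [← hx, hσU _ h]
      exact Or.inl h
    · rw [← hx, h, hσs]
      exact Or.inr (Or.inl rfl)
    · rw [← hx, h, hσw]
      exact Or.inr (Or.inr (Or.inl rfl))
    · rw [← hx, h, hσc]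
      exact Or.inr (Or.inr (Or.inr rfl))
  have hiso : ∀ x, ¬ E₄ a x := by
    intro x h
    rcases hin4 _ _ h with h | h | h | h
    · exact haU h
    · exact has h
    · exact hab h
    · exact hac h
  have N3 := H77.rot N2
  have N4 := H51.nta (P := []) (p := b) (q := s) (Q := [c]) (v := a) N3 hiso
  have N5 := H51.ntb (P := [b]) (p := a) (v := s) (q := c) (Q := []) N4 (by
    rintro ((h | ⟨h, -⟩ | ⟨-, h⟩) | ⟨h, -⟩ | ⟨-, h⟩)
    · exact hiso _ h
    · exact hab h
    · exact hcb h
    · exact has h
    · exact hP.sc h.symm)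
  have N6 := H77.rot (H77.rot N5)
  refine ⟨_, _, N6, ?_, ?_⟩
  · -- the inner vertices
    ext x
    constructor
    · rintro ⟨hxa, hxb, hxc, y, hy⟩
      rcases hy with ((hy | ⟨h, -⟩ | ⟨h, -⟩) | ⟨h, -⟩ | ⟨h, -⟩) | ⟨h, -⟩ | ⟨h, -⟩
      · rcases hin4 _ _ hy with h | h | h | h
        · exact Or.inr h
        · exact Or.inl h
        · exact absurd h hxb
        · exact absurd h hxc
      · exact absurd h hxb
      · exact absurd h hxa
      · exact Or.inl h
      · exact absurd h hxa
      · exact absurd h hxa
      · exact absurd h hxc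
    · rintro (rfl | hx)
      · exact ⟨fun e => has e.symm, hP.sb, hP.sc, a, Or.inl (Or.inr (Or.inl ⟨rfl, rfl⟩))⟩
      · have hxc : x ≠ c := fun e => hP.uc (e ▸ hx)
        refine ⟨fun e => haU (e ▸ hx), fun e => hbU (e ▸ hx), hxc, ?_⟩
        obtain ⟨y, hy⟩ := hP.ur x hx
        have h5 : E₅ x y := by
          rw [hE₅]
          by_cases hyc : y = c
          · subst hyc
            have h1 := (hP.nc x).1 (hP.nt.sym _ _ hy)
            have h2 : ∀ z ∈ a :: s :: w :: Q, x ≠ z := fun z hz e => hP.uo z hz (e ▸ hx)
            refine Or.inr (Or.inr ⟨rfl, ?_⟩)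
            simp only [List.mem_cons, List.mem_append, List.not_mem_nil, or_false] at h1 ⊢
            rcases h1 with h1 | h1 | h1 | h1 | h1
            · exact absurd h1 (h2 a (by simp))
            · exact Or.inl h1
            · exact Or.inr (Or.inl h1)
            · exact Or.inr (Or.inr h1)
            · exact absurd rfl (h2 x (by simp [h1]))
          · refine Or.inl ⟨⟨hy, hxc, hyc⟩, Or.inl hx, ?_⟩
            rcases hP.ucl x hx y hy with h | h | h | h
            · exact Or.inl h
            · exact Or.inr (Or.inl h)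
            · exact Or.inr (Or.inr h)
            · exact absurd h hyc
        have h6 := hE45 _ _ h5
        rw [hσU x hx] at h6
        exact ⟨σ y, Or.inl (Or.inl (Or.inl h6))⟩
  · -- the faces
    have hth : ∀ x, (x ∈ U ∨ x = s ∨ x = w ∨ x = c) → th2 a b c (insert s U) x = σ x := by
      intro x hx
      rcases hx with hx | rfl | rfl | rfl
      · rw [hσU x hx]
        exact if_pos (Or.inl (Or.inr hx))
      · rw [hσs]
        exact if_pos (Or.inl (Or.inl rfl))
      · rw [hσw]
        apply if_neg
        rintro ((h | h) | h | h)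
        · exact hsw h.symm
        · exact hwU h
        · exact haw h.symm
        · exact hP.wc h
      · rw [hσc]
        exact if_pos (Or.inr (Or.inr rfl))
    have hconZ : ∀ x y, Con (a :: s :: (M ++ w :: Q)) x y → (x ∈ U ∨ x = s ∨ x = w ∨ x = c) →
        (y ∈ U ∨ y = s ∨ y = w ∨ y = c) → Con (s :: (M ++ [w])) x y := by
      intro x y h hx hy
      have hxa : x ≠ a := by
        rintro rfl
        rcases hx with h | h | h | h
        · exact haU h
        · exact has h
        · exact haw h
        · exact hac h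
      have h1 : Con ((s :: M) ++ w :: Q) x y := con_cons h hxa
      rcases con_mid h1 with h2 | h2
      · exact h2
      · exfalso
        have h3 := con_tail h2
        rcases hy with h | rfl | rfl | rfl
        · exact hP.uo y (by simp [h3]) h
        · simp only [List.nodup_cons, List.mem_append, List.mem_cons, not_or] at hnd'
          exact hnd'.1.2.2 h3
        · have h4 := (List.nodup_cons.1 hnd').2
          have h5 := (List.nodup_append.1 h4).2.1
          exact (List.nodup_cons.1 h5).1 h3
        · apply hcL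
          simp [h3]
    have hface : ∀ x y z, F x y z → (x ∈ U ∨ x = s ∨ x = w ∨ x = c) →
        (y ∈ U ∨ y = s ∨ y = w ∨ y = c) → (z ∈ U ∨ z = s ∨ z = w ∨ z = c) → F₅ x y z := by
      intro x y z h hx hy hz
      rw [hF₅]
      by_cases hzc : z = c
      · subst hzc
        exact Or.inr (Or.inl ⟨hconZ _ _ (hP.fc _ _ h) hx hy, rfl⟩)
      by_cases hxc : x = c
      · subst hxc
        exact Or.inr (Or.inr (Or.inl ⟨hconZ _ _ (hP.fc _ _ (hP.nt.rot _ _ _ h)) hy hz, rfl⟩))
      by_cases hyc : y = c
      · subst hyc
        exact Or.inr (Or.inr (Or.inr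
          ⟨hconZ _ _ (hP.fc _ _ (hP.nt.rot _ _ _ (hP.nt.rot _ _ _ h))) hz hx, rfl⟩))
      have key : ∀ t, t ≠ c → (t ∈ U ∨ t = s ∨ t = w ∨ t = c) → t ∈ U ∪ {s, w} := by
        intro t htc ht
        rcases ht with ht | ht | ht | ht
        · exact Or.inl ht
        · exact Or.inr (Or.inl ht)
        · exact Or.inr (Or.inr ht)
        · exact absurd ht htc
      exact Or.inl ⟨⟨h, hxc, hyc, hzc⟩, key x hxc hx, key y hyc hy, key z hzc hz⟩
    have main : ∀ x y z, F x y z → x ∈ insert s U ∪ {c} → y ∈ insert s U ∪ {c} →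
        addF (addF F₄ b s a) a s c (th2 a b c (insert s U) x) (th2 a b c (insert s U) y)
          (th2 a b c (insert s U) z) := by
      intro x y z h hx hy
      have hxy : x ≠ y := by
        rintro rfl
        exact hP.nt.irr _ (hP.nt.fe _ _ _ h)
      have hExz : E x z := hP.nt.sym _ _ (hP.nt.fe _ _ _ (hP.nt.rot _ _ _ (hP.nt.rot _ _ _ h)))
      have hEyz : E y z := hP.nt.fe _ _ _ (hP.nt.rot _ _ _ h)
      have hx' : x ∈ U ∨ x = s ∨ x = w ∨ x = c := by
        rcases hx with (hx | hx) | hx
        · exact Or.inr (Or.inl hx)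
        · exact Or.inl hx
        · exact Or.inr (Or.inr (Or.inr hx))
      have hy' : y ∈ U ∨ y = s ∨ y = w ∨ y = c := by
        rcases hy with (hy | hy) | hy
        · exact Or.inr (Or.inl hy)
        · exact Or.inl hy
        · exact Or.inr (Or.inr (Or.inr hy))
      by_cases hza : z = a
      · subst hza
        have hnU : ∀ t ∈ U, ¬ E t z := by
          intro t ht h1
          rcases hP.ucl t ht z h1 with h | h | h | h
          · exact haU h
          · exact has h
          · exact haw h
          · exact hac h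
        have hxU : x ∉ U := fun h1 => hnU x h1 hExz
        have hyU : y ∉ U := fun h1 => hnU y h1 hEyz
        have e1 : th2 z b c (insert s U) s = s := if_pos (Or.inl (Or.inl rfl))
        have e2 : th2 z b c (insert s U) c = c := if_pos (Or.inr (Or.inr rfl))
        have e3 : th2 z b c (insert s U) z = z := if_pos (Or.inr (Or.inl rfl))
        rcases hx with (hx | hx) | hx
        · rcases hy with (hy | hy) | hy
          · exact absurd (hx.trans hy.symm) hxy
          · exact absurd hy hyU
          · have hy1 : y = c := hy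
            subst hx
            subst hy1
            rw [e1, e2, e3]
            exact Or.inr (Or.inr (Or.inl ⟨rfl, rfl, rfl⟩))
        · exact absurd hx hxU
        · have hx1 : x = c := hx
          rcases hy with (hy | hy) | hy
          · exfalso
            subst hx1
            subst hy
            have h1 := con_tail (hP.fc _ _ (hP.nt.rot _ _ _ h))
            exact haL h1
          · exact absurd hy hyU
          · exact absurd (hx1.trans (show y = c from hy).symm) hxy
      · have hz' : z ∈ U ∨ z = s ∨ z = w ∨ z = c := by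
          rcases hx with (hx | hx) | hx
          · rcases hy with (hy | hy) | hy
            · exact absurd (hx.trans hy.symm) hxy
            · exact hP.ucl y hy z hEyz
            · have hy1 : y = c := hy
              exfalso
              subst hx
              subst hy1
              have h1 := hP.fc _ _ (hP.nt.rot _ _ _ (hP.nt.rot _ _ _ h))
              exact hza (H56.con_pred (A := []) hnd h1)
          · exact hP.ucl x hx z hExz
          · have hx1 : x = c := hx
            rcases hy with (hy | hy) | hy
            · subst hx1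
              subst hy
              have h1 := hP.fc _ _ (hP.nt.rot _ _ _ h)
              have h2 := con_cons h1 (fun e => has e.symm)
              cases M with
              | nil =>
                have h3 := H56.con_succ (A := []) (v := y) (q := w) (B := Q) hnd' h2
                exact Or.inr (Or.inr (Or.inl h3))
              | cons m M =>
                have h3 := H56.con_succ (A := []) (v := y) (q := m) (B := M ++ w :: Q) hnd' h2
                rw [h3]
                exact Or.inl (hP.uM m (by simp))
            · exact hP.ucl y hy z hEyz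
            · exact absurd (hx1.trans (show y = c from hy).symm) hxy
        rw [hth x hx', hth y hy', hth z hz']
        exact Or.inl (Or.inl (hF45 _ _ _ (hface x y z h hx' hy' hz')))
    intro x y z h hT
    rcases hT with ⟨h1, h2⟩ | ⟨h1, h2⟩ | ⟨h1, h2⟩
    · exact main x y z h h1 h2
    · exact N6.rot _ _ _ (N6.rot _ _ _ (main y z x (hP.nt.rot _ _ _ h) h1 h2))
    · exact N6.rot _ _ _ (main z x y (hP.nt.rot _ _ _ (hP.nt.rot _ _ _ h)) h1 h2)

end Pool.Agent.SGY.H10
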